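import Pool.Agent.MP_5cfeaf_gt.Main

/-! Q1 for the p-widths of the unit ball, for every choice of the pairs. -/

set_option autoImplicit false

open MeasureTheory Pool.Agent.MP_5cfeaf_gt.W

namespace Pool.Agent.Results.MP_5cfeaf_gt.Infinite

theorem result (n : ℕ) (h3 : 3 ≤ n) (h7 : n ≤ 7) (M : ℕ → Set (E n)) (N : ℕ → ℕ)
    (h : ∀ p, 1 ≤ p → width n p = N p * μHE[n - 1] (M p)) :
    ¬ ∃ F : Set (Set (E n)), F.Finite ∧ ∀ p, 1 ≤ p → ∃ A ∈ F, ∃ g : E n ≃ᵢ E n, M p = g '' A :=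
  main_iso n h3 h7 M N h

end Pool.Agent.Results.MP_5cfeaf_gt.Infinite
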