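import Pool.Agent.MP_5cfeaf_gt.Main

/-! Plateaus of the p-widths of the unit ball have length `O(p^(1/n))`. -/

set_option autoImplicit false

open Pool.Agent.MP_5cfeaf_gt.W

namespace Pool.Agent.Results.MP_5cfeaf_gt.Plateau

theorem result (n : ℕ) (h3 : 3 ≤ n) (h7 : n ≤ 7) :
    ∃ C : ℕ, ∀ p m : ℕ, 1 ≤ p → C * p ≤ m ^ n → width n p < width n (p + m) := by
  obtain ⟨d, rfl⟩ : ∃ d, n = d + 1 := ⟨n - 1, by omega⟩
  obtain ⟨C₁, hC₁, h₁⟩ := plateau (d := d) (by omega) (by omega)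
  obtain ⟨C₂, hC₂, h₂⟩ := E_width_bound (d := d) (by omega)
  obtain ⟨K, hK⟩ := exists_nat_gt (C₁ * (C₂ + 2))
  have hK0 : 0 < K := by
    have : (0 : ℝ) < K := lt_trans (by positivity) hK
    exact_mod_cast this
  refine ⟨2 * (2 * K) ^ (d + 1), fun p m hp hm => ?_⟩
  set q := m / K with hq
  have hqm : K * q ≤ m := Nat.mul_div_le m K
  have hmq : m < K * (q + 1) := Nat.lt_mul_div_succ m hK0
  have hq1 : 1 ≤ q := by
    by_contra h
    have h0 : q = 0 := Nat.lt_one_iff.1 (not_le.1 h)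
    rw [h0, zero_add, mul_one] at hmq
    have h1 : m ^ (d + 1) ≤ (2 * K) ^ (d + 1) := Nat.pow_le_pow_left (by omega) _
    have h2 : 0 < (2 * K) ^ (d + 1) := by positivity
    nlinarith
  have hpq : p + 1 ≤ q ^ (d + 1) := by
    have h1 : m ^ (d + 1) ≤ (2 * K) ^ (d + 1) * q ^ (d + 1) := by
      rw [← mul_pow]; exact Nat.pow_le_pow_left (by nlinarith) _
    have h2 : 0 < (2 * K) ^ (d + 1) := by positivity
    have h3 : (2 * K) ^ (d + 1) * (2 * p) ≤ (2 * K) ^ (d + 1) * q ^ (d + 1) := by linarith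
    have := Nat.le_of_mul_le_mul_left h3 h2
    omega
  have hw := h₂ q p hp hpq
  have hne : width (d + 1) p ≠ ⊤ := ne_top_of_le_ne_top ENNReal.ofReal_ne_top hw
  refine h₁ p m (width (d + 1) p).toReal hp ENNReal.toReal_nonneg (ENNReal.ofReal_toReal hne).symm ?_
  have h4 : (width (d + 1) p).toReal ≤ C₂ * q + 1 :=
    ENNReal.toReal_le_of_le_ofReal (by positivity) hw
  have h5 : (1 : ℝ) ≤ q := by exact_mod_cast hq1
  have h6 : (K : ℝ) * q ≤ m := by exact_mod_cast hqm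
  calc C₁ * ((width (d + 1) p).toReal + 1) ≤ C₁ * ((C₂ + 2) * q) := by gcongr; nlinarith
    _ = C₁ * (C₂ + 2) * q := by ring
    _ ≤ K * q := by gcongr
    _ ≤ m := h6

end Pool.Agent.Results.MP_5cfeaf_gt.Plateau
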